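import Pool.Agent.Helper44.AS.Tor

/-!
# Sets of small doubling and one convex progression inside all their `n`-fold averages

`Γ` is a torsion-free abelian group (for instance `ℤ`), `averages n A` is the set of the `x` in `Γ`
for which `n x` is in the `n`-fold sumset of the finite set `A`.

Let `|A + A| ≤ K |A|`. Then `A` is covered by polynomially many translates of one proper centred convex
progression `P` of dimension `O(log 2K)`, such that a translate of `P` consists of `n`-fold averages of
elements of `A` for every even `n ≥ 10^40 (log 2K)^5`: the dilate `n P` has a translate in `n A`. (So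
`P` is a progression for which nothing is lost, neither in the number of translates nor in the dimension.
What is not known is `|P| ≤ K^O(1) |A|`; this would be the conjecture.)

Consequently the conclusion of Q1 holds for `A` if the number of translates is multiplied by
`max (1, |averages n A| / |A|)`, with `n` any even number `≥ 10^40 (log 2K)^5`: up to the factor
`(2K)^(10^9)` only the number of averages matters.

Proof: weak polynomial Freiman-Ruzsa theorem and popular centre give a symmetric part `R` of `A` in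
`ℤ^d`, `d = O(log 2K)`. For a near-minimising pair of laws on `R` with a constant weight the growth of
the iterated convolutions is so slow that a part `E` of `R`, `|E| ≥ K^(-O(1)) |R|`, has `E - E` in a Bohr
set of radius `c / log 2K` of their large spectrum, whereas the Bohr set of radius `1/6` is in the
`O((log 2K)^5)`-fold sumset of `R`. In a lattice model of rank `O(log 2K)` (again by the weak theorem) the
lattice points `y` of a quarter of the convex hull of `E - E` are averages: round the coefficients of `n y`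
as a convex combination; the rounding error is in the Bohr set of radius `1/6`.
-/

set_option autoImplicit false
open scoped Pointwise

namespace Pool.Agent.Results.MP_626a77_co.AveragesProgression

open Pool.Agent.Helper44.AS Pool.Agent.TH198.DC

theorem result (Γ : Type*) [AddCommGroup Γ] [IsAddTorsionFree Γ] [DecidableEq Γ] (K : ℝ)
    (A : Finset Γ) (hA : A.Nonempty) (hK : ((A + A).card : ℝ) ≤ K * (A.card : ℝ)) :
    -- the progression inside the averages
    (∃ (d : ℕ) (B : Set (Fin d → ℝ)) (ψ : (Fin d → ℤ) →+ Γ) (x₀ : Γ) (T : Finset Γ),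
      (d : ℝ) ≤ 10 ^ 8 * Real.log (2 * K) ∧
      Convex ℝ B ∧ IsCompact B ∧ (interior B).Nonempty ∧ (∀ x ∈ B, -x ∈ B) ∧
      (∀ x y : Fin d → ℤ, (fun i => (x i : ℝ)) ∈ B → (fun i => (y i : ℝ)) ∈ B →
        ψ x = ψ y → x = y) ∧
      (∀ n : ℕ, Even n → 10 ^ 40 * Real.log (2 * K) ^ 5 ≤ n →
        ∀ x : Fin d → ℤ, (fun i => (x i : ℝ)) ∈ B → x₀ + ψ x ∈ averages n A) ∧
      T ⊆ A ∧ (T.card : ℝ) ≤ (2 * K) ^ (10 ^ 9 : ℝ) ∧
      ∀ a ∈ A, ∃ t ∈ T, ∃ x : Fin d → ℤ, (fun i => (x i : ℝ)) ∈ B ∧ a = t + ψ x) ∧
    -- the consequence for the covering by progressions of volume at most `|A|`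
    (∀ n : ℕ, Even n → 10 ^ 40 * Real.log (2 * K) ^ 5 ≤ n →
      ∃ (d : ℕ) (B : Set (Fin d → ℝ)) (ψ : (Fin d → ℤ) →+ Γ) (T : Finset Γ),
        (d : ℝ) ≤ 10 ^ 8 * Real.log (2 * K) ∧
        Convex ℝ B ∧ IsCompact B ∧ (interior B).Nonempty ∧ (∀ x ∈ B, -x ∈ B) ∧
        {x : Fin d → ℤ | (fun i => (x i : ℝ)) ∈ B}.ncard ≤ A.card ∧
        (T.card : ℝ) ≤ (2 * K) ^ (10 ^ 9 : ℝ) *
          max 1 (((averages n A).ncard : ℝ) / (A.card : ℝ)) ∧
        ∀ a ∈ A, ∃ t ∈ T, ∃ x : Fin d → ℤ, (fun i => (x i : ℝ)) ∈ B ∧ a = t + ψ x) := by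
  have hc : (0 : ℝ) < A.card := by exact_mod_cast hA.card_pos
  have hK1 : 1 ≤ K := by
    have h1 : (A.card : ℝ) ≤ (A + A).card := by
      exact_mod_cast Finset.card_le_card_add_right hA
    by_contra h
    nlinarith
  have hκ0 : 0 < Real.log (2 * K) := Real.log_pos (by linarith)
  refine ⟨?_, ?_⟩
  · obtain ⟨r, B, ψ, x₀, X, hr, hB, hinj, hAvg, hXA, hX, hcov⟩ := structure_tor hA hK
    refine ⟨r, B, ψ, x₀, X, by linarith, hB.conv, hB.comp, hB.inter, hB.symm, ?_, ?_, hXA, ?_, ?_⟩
    · intro x y hx hy hxy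
      exact hinj hx hy hxy
    · intro n hev hn x hx
      exact hAvg n hev hn x hx
    · rw [← exp_eq (by linarith)]
      refine hX.trans (Real.exp_le_exp.2 ?_)
      linarith
    · intro a ha
      obtain ⟨x, hx, y, hy, hxy⟩ := hcov a ha
      exact ⟨x, hx, y, hy, hxy⟩
  · intro n hev hn
    obtain ⟨r, B, ψ, T, hr, hB, hBc, hT, hcov⟩ := small_volume hA hK hev hn
    refine ⟨r, B, ψ, T, by linarith, hB.conv, hB.comp, hB.inter, hB.symm, hBc, ?_, ?_⟩
    · have h1 : max (1 : ℝ) (((averages n A).ncard : ℝ) / (A.card : ℝ)) * A.card =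
          max (A.card : ℝ) (averages n A).ncard := by
        rw [max_mul_of_nonneg _ _ hc.le, one_mul, div_mul_cancel₀ _ hc.ne']
      have h2 : Real.exp (9 * 10 ^ 8 * Real.log (2 * K)) ≤ (2 * K) ^ (10 ^ 9 : ℝ) := by
        rw [← exp_eq (by linarith), Real.exp_le_exp]
        linarith
      have h3 : (0 : ℝ) ≤ max (A.card : ℝ) (averages n A).ncard := le_max_of_le_left hc.le
      refine le_of_mul_le_mul_right ?_ hc
      rw [mul_assoc, h1]
      exact hT.trans (mul_le_mul_of_nonneg_right h2 h3)
    · intro a ha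
      obtain ⟨t, ht, y, hy, hty⟩ := hcov a ha
      exact ⟨t, ht, y, hy, hty⟩

end Pool.Agent.Results.MP_626a77_co.AveragesProgression
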