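import Pool.Agent.Helper44.FA.Eq

/-!
# Polynomial Freiman-Ruzsa in the integers: sets with few averages

For a finite `S ⊂ ℤ^m` let `Avg n S` be the set of the integer points `x` with `n x ∈ nS`, where
`nS` is the `n`-fold sumset: the averages of `n` elements of `S` which are integer points. Their
number is the number of the points of `nS` all of whose coordinates are divisible by `n`. (For
bounded `n` there are always few averages: at most `|nS| ≤ K^n |S|`, if `|S + S| ≤ K |S|`. For `n`
tending to infinity one obtains in general all the lattice points of the convex hull of `S`.)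

1. Let `|A + A| ≤ K |A|`, `A ⊂ ℤ`, and suppose that for a single even `n ≥ 2^100 (log (2 K M))^5` the
   set `A` contains a translate of a copy `φ(S)`, `|S| ≥ |A| / M`, of a set `S ⊂ ℤ^m` (`m` of any
   size) with at most `M |S|` averages of `n` elements (for instance `m = 1`, `S = A`). Then `A` is
   covered by `(2 K M)^(10^9)` translates of a centred convex progression of dimension at most
   `10^8 log (2 K M)` and volume at most `|A|`.
2. So the polynomial Freiman-Ruzsa conjecture Q1 is equivalent to: every `A` with `|A + A| ≤ K |A|`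
   has such a piece with `M = C K^C` for one even `n ≥ 2^105 (C log (2 K))^5`. (Neither convexity nor
   dimension nor progressions occur in this statement, and only `polylog (K)`-fold sums of `S`.)
3. Sets of minimal growth have few averages: `S ⊂ ℤ^m` has at most `M |S|` averages of `n` elements
   if its `l`-fold sumset contains a translate of `{0, 1}^m` and `|(l + 1) n S| ≤ M n^m |S|`. (The
   power `n^m` is the smallest possible order of growth.)

Proof of 1: weak polynomial Freiman-Ruzsa theorem and popular centre: `S` may be taken symmetric, in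
`ℤ^d` with `d = O(log K M)`. The number of averages controls `|jS| ≤ n^d |Avg n S|` for `2 j ≤ n`.
Near-invariance of the iterated convolutions: a subset `E`, `|E| ≥ |S| / e`, has `E - E` in a Bohr
set of very small radius of the large spectrum, while the Bohr set of radius `1/6` is contained in
`(n/2) S`. In the lattice model of this Bohr set (dimension `O(log K M)`) every lattice point `y` of
a quarter of the convex hull of `E - E` is an average: round the coefficients of `n y` as a convex
combination; the error lies in the Bohr set. So there are few such lattice points, and a part of `E`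
is dense in its convex hull; dense pieces in convex sets are known to suffice.
-/

set_option autoImplicit false
open scoped Pointwise

namespace Pool.Agent.Results.MP_626a77_co.FewAverages

open Pool.Agent.Helper44.FA

/-- **Sets with few averages.** In 2. the first statement is Q1 (as in the frozen statement). -/
theorem result :
    (∀ (K M : ℝ) (A : Finset ℤ) (n : ℕ), A.Nonempty → ((A + A).card : ℝ) ≤ K * (A.card : ℝ) →
      Even n → 2 ^ 100 * Real.log (2 * (K * M)) ^ 5 ≤ n → AvgPiece n M A →
      ∃ (d : ℕ) (B : Set (Fin d → ℝ)) (v : Fin d → ℤ) (T : Finset ℤ),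
        (d : ℝ) ≤ 10 ^ 8 * Real.log (2 * (K * M)) ∧
        Convex ℝ B ∧ IsCompact B ∧ (interior B).Nonempty ∧ (∀ x ∈ B, -x ∈ B) ∧
        ({x : Fin d → ℤ | (fun i => (x i : ℝ)) ∈ B}.ncard ≤ A.card) ∧
        ((T.card : ℝ) ≤ (2 * (K * M)) ^ (10 ^ 9 : ℝ)) ∧
        ∀ a ∈ A, ∃ t ∈ T, ∃ x : Fin d → ℤ,
          (fun i => (x i : ℝ)) ∈ B ∧ a = t + ∑ i, v i * x i) ∧
    List.TFAE [
      ∃ C : ℝ, 0 < C ∧ ∀ (K : ℝ) (A : Finset ℤ), A.Nonempty →
        ((A + A).card : ℝ) ≤ K * (A.card : ℝ) → Covered C K A,
      ∃ C : ℝ, 0 < C ∧ ∀ (K : ℝ) (A : Finset ℤ), A.Nonempty →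
        ((A + A).card : ℝ) ≤ K * (A.card : ℝ) → ∀ n : ℕ, 1 ≤ n → AvgPiece n (C * K ^ C) A,
      ∃ C : ℝ, 0 < C ∧ ∀ (K : ℝ) (A : Finset ℤ), A.Nonempty →
        ((A + A).card : ℝ) ≤ K * (A.card : ℝ) →
        ∃ n : ℕ, Even n ∧ 2 ^ 105 * (C * Real.log (2 * K)) ^ 5 ≤ n ∧ AvgPiece n (C * K ^ C) A] ∧
    (∀ (m n l : ℕ) (M : ℝ) (S : Finset (Fin m → ℤ)) (u : Fin m → ℤ), 1 ≤ n → S.Nonempty →
      (∀ ε : Fin m → ℤ, (∀ i, ε i = 0 ∨ ε i = 1) → u + ε ∈ Sums l S) →
      ((Sums ((l + 1) * n) S).ncard : ℝ) ≤ M * n ^ m * S.card →
      ((Avg n S).ncard : ℝ) ≤ M * S.card) :=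
  ⟨fun _ _ _ _ hA hK hev hn h => cover_int hA hK hev hn h, avg_tfae,
    fun _ _ _ _ _ u hn hS hc h => few_of_cube hn hS u hc h⟩

end Pool.Agent.Results.MP_626a77_co.FewAverages
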